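import Mathlib

/-!
Binary matroids, circuits, circuit odd-covers and arboricity, over `Fin n → ZMod 2`.
-/

set_option autoImplicit false

namespace Pool.Agent.H140.BM

open Finset

/-- A circuit: an inclusion-minimal nonempty set of nonzero vectors of `𝔽₂ⁿ` with sum zero. -/
def IsCircuit {n : ℕ} (C : Finset (Fin n → ZMod 2)) : Prop :=
  (C.Nonempty ∧ (0 : Fin n → ZMod 2) ∉ C ∧ ∑ x ∈ C, x = 0) ∧
    ∀ D ⊆ C, D.Nonempty → ∑ x ∈ D, x = 0 → D = C

/-- `C 0, …, C (t-1)` is a circuit odd-cover of `M`: all `C i` are circuits, the elements of `M`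
lie in an odd number of them and all other vectors of `𝔽₂ⁿ` in an even number. -/
def IsOddCover {n t : ℕ} (C : Fin t → Finset (Fin n → ZMod 2))
    (M : Finset (Fin n → ZMod 2)) : Prop :=
  (∀ i, IsCircuit (C i)) ∧ ∀ x, x ∈ M ↔ Odd (univ.filter fun i => x ∈ C i).card

/-- `c₂(M)`: the least size of a circuit odd-cover. -/
noncomputable def c2 {n : ℕ} (M : Finset (Fin n → ZMod 2)) : ℕ :=
  sInf {t : ℕ | ∃ C : Fin t → Finset (Fin n → ZMod 2), IsOddCover C M}

/-- `a(M)`: the least `t` such that `M` is the union of `t` linearly independent sets. -/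
noncomputable def arboricity {n : ℕ} (M : Finset (Fin n → ZMod 2)) : ℕ :=
  sInf {t : ℕ | ∃ I : Fin t → Finset (Fin n → ZMod 2),
    (∀ i, LinearIndepOn (ZMod 2) id (I i : Set (Fin n → ZMod 2))) ∧ M = univ.biUnion I}

/-- A set without nonempty subset of sum zero is linearly independent over `𝔽₂`. -/
lemma linearIndepOn_of_no_zero_sum {n : ℕ} {B : Finset (Fin n → ZMod 2)}
    (h : ∀ D ⊆ B, D.Nonempty → ∑ x ∈ D, x ≠ 0) :
    LinearIndepOn (ZMod 2) id (B : Set (Fin n → ZMod 2)) := by
  rw [linearIndepOn_finset_iff]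
  intro f hf x hx
  by_contra hfx
  have h01 : ∀ a : ZMod 2, a = 0 ∨ a = 1 := by decide
  have key : ∑ y ∈ B.filter (fun y => f y ≠ 0), y = 0 := by
    rw [Finset.sum_filter]
    refine Eq.trans (Finset.sum_congr rfl fun y _ => ?_) hf
    rcases h01 (f y) with h0 | h1
    · rw [if_neg (by simp [h0]), h0, zero_smul]
    · rw [if_pos (by simp [h1]), h1, one_smul, id]
  exact h _ (Finset.filter_subset _ _) ⟨x, Finset.mem_filter.2 ⟨hx, hfx⟩⟩ key

lemma card_le_of_no_zero_sum {n : ℕ} {B : Finset (Fin n → ZMod 2)}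
    (h : ∀ D ⊆ B, D.Nonempty → ∑ x ∈ D, x ≠ 0) : B.card ≤ n := by
  have h1 := linearIndepOn_of_no_zero_sum h
  have h2 := LinearIndependent.fintype_card_le_finrank h1
  simpa using h2

lemma linearIndepOn_card_le {n : ℕ} {B : Finset (Fin n → ZMod 2)}
    (h1 : LinearIndepOn (ZMod 2) id (B : Set (Fin n → ZMod 2))) : B.card ≤ n := by
  have h2 := LinearIndependent.fintype_card_le_finrank h1
  simpa using h2

/-- A proper subset of a circuit has no nonempty subset of sum zero. -/
lemma IsCircuit.no_zero_sum {n : ℕ} {C B : Finset (Fin n → ZMod 2)} (hC : IsCircuit C)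
    (hB : B ⊆ C) (hne : B ≠ C) : ∀ D ⊆ B, D.Nonempty → ∑ x ∈ D, x ≠ 0 := by
  intro D hD hDne h0
  have := hC.2 D (hD.trans hB) hDne h0
  apply hne
  apply Finset.Subset.antisymm hB
  rw [← this]
  exact hD

lemma IsCircuit.card_le {n : ℕ} {C : Finset (Fin n → ZMod 2)} (hC : IsCircuit C) :
    C.card ≤ n + 1 := by
  obtain ⟨x, hx⟩ := hC.1.1
  have h := card_le_of_no_zero_sum (hC.no_zero_sum (Finset.erase_subset x C)
    (by intro h; rw [← h] at hx; simp at hx))
  rw [Finset.card_erase_of_mem hx] at h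
  omega

/-- A linearly independent family together with its sum is a circuit. -/
lemma isCircuit_insert_sum {n : ℕ} {ι : Type} [Fintype ι] [Nonempty ι] [DecidableEq ι]
    (v : ι → Fin n → ZMod 2) (hv : LinearIndependent (ZMod 2) v)
    (hs : ∑ i, v i ∉ univ.image v) :
    IsCircuit (insert (∑ i, v i) (univ.image v)) := by
  classical
  have hinj : Function.Injective v := hv.injective
  have hsum : ∀ S : Finset ι, ∑ x ∈ S.image v, x = ∑ i ∈ S, v i := fun S =>
    Finset.sum_image (fun a _ b _ h => hinj h)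
  have hself : ∀ x : Fin n → ZMod 2, x + x = 0 := by
    intro x; ext i; simp only [Pi.add_apply, Pi.zero_apply]
    generalize x i = a; revert a; decide
  have hli : ∀ S : Finset ι, ∑ i ∈ S, v i = 0 → S = ∅ := by
    intro S hS
    by_contra hne
    obtain ⟨j, hj⟩ := Finset.nonempty_iff_ne_empty.2 hne
    have := linearIndependent_iff'.1 hv S (fun _ => 1) (by simpa using hS) j hj
    exact one_ne_zero this
  refine ⟨⟨⟨_, Finset.mem_insert_self _ _⟩, ?_, ?_⟩, ?_⟩
  · rw [Finset.mem_insert, not_or]
    refine ⟨fun h => ?_, fun h => ?_⟩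
    · have := hli univ h.symm
      exact (Finset.univ_nonempty (α := ι)).ne_empty this
    · obtain ⟨i, -, hi⟩ := Finset.mem_image.1 h
      exact hv.ne_zero i hi
  · rw [Finset.sum_insert hs, hsum]
    exact hself _
  · intro D hD hDne hD0
    -- `D ∩ image v` is the image of a set `S`
    set S : Finset ι := univ.filter fun i => v i ∈ D with hSdef
    have hDS : D.erase (∑ i, v i) = S.image v := by
      ext x
      simp only [Finset.mem_erase, Finset.mem_image, hSdef, Finset.mem_filter,
        Finset.mem_univ, true_and]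
      constructor
      · rintro ⟨hx, hxD⟩
        rcases Finset.mem_insert.1 (hD hxD) with h | h
        · exact absurd h hx
        · obtain ⟨i, -, rfl⟩ := Finset.mem_image.1 h
          exact ⟨i, hxD, rfl⟩
      · rintro ⟨i, hi, rfl⟩
        refine ⟨fun h => hs ?_, hi⟩
        rw [← h]
        exact Finset.mem_image_of_mem v (Finset.mem_univ i)
    by_cases hmem : ∑ i, v i ∈ D
    · have h1 : ∑ i, v i + ∑ i ∈ S, v i = 0 := by
        rw [← hsum S, ← hDS, Finset.add_sum_erase D (fun x => x) hmem]
        exact hD0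
      have h2 : ∑ i ∈ Sᶜ, v i = 0 := by
        have h3 := Finset.sum_add_sum_compl S v
        rw [← h3, add_right_comm, hself, zero_add] at h1
        exact h1
      have h4 := hli _ h2
      rw [Finset.compl_eq_empty_iff] at h4
      rw [h4] at hDS
      rw [← Finset.insert_erase hmem, hDS]
    · rw [Finset.erase_eq_of_notMem hmem] at hDS
      have : ∑ i ∈ S, v i = 0 := by rw [← hsum S, ← hDS]; exact hD0
      have h4 := hli _ this
      rw [h4, Finset.image_empty] at hDS
      exact absurd hDS hDne.ne_empty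

end Pool.Agent.H140.BM
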