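import Pool.Agent.H140.BM.Basic

/-!
The Eulerian binary matroid `M = N ⊕ N` in `𝔽₂⁸`, where `N` is `𝔽₂⁴` minus a plane,
has arboricity `3` and no circuit odd-cover by at most three circuits.
-/

set_option autoImplicit false

namespace Pool.Agent.H140.BM

open Finset

/-- The matroid: `24` vectors of `𝔽₂⁸`, the union of two copies of `𝔽₂⁴` minus a plane. -/
def M0 : Finset (Fin 8 → ZMod 2) :=
  univ.filter fun v =>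
    ((v 4 = 0 ∧ v 5 = 0 ∧ v 6 = 0 ∧ v 7 = 0) ∧ (v 0 ≠ 0 ∨ v 1 ≠ 0)) ∨
    ((v 0 = 0 ∧ v 1 = 0 ∧ v 2 = 0 ∧ v 3 = 0) ∧ (v 4 ≠ 0 ∨ v 5 ≠ 0))

lemma mem_M0 {v : Fin 8 → ZMod 2} : v ∈ M0 ↔
    ((v 4 = 0 ∧ v 5 = 0 ∧ v 6 = 0 ∧ v 7 = 0) ∧ (v 0 ≠ 0 ∨ v 1 ≠ 0)) ∨
    ((v 0 = 0 ∧ v 1 = 0 ∧ v 2 = 0 ∧ v 3 = 0) ∧ (v 4 ≠ 0 ∨ v 5 ≠ 0)) := by
  simp [M0]

lemma card_M0 : M0.card = 24 := by decide +kernel

lemma zero_notMem_M0 : (0 : Fin 8 → ZMod 2) ∉ M0 := by simp [mem_M0]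

lemma sum_M0 : ∑ x ∈ M0, x = 0 := by decide +kernel

/-- Three bases of `𝔽₂⁸` which partition `M0`. -/
def bas : Fin 3 → Fin 8 → Fin 8 → ZMod 2 :=
  ![![![1,0,0,0,0,0,0,0], ![0,1,0,0,0,0,0,0], ![1,0,1,0,0,0,0,0], ![1,0,0,1,0,0,0,0],
      ![0,0,0,0,1,0,0,0], ![0,0,0,0,0,1,0,0], ![0,0,0,0,1,0,1,0], ![0,0,0,0,1,0,0,1]],
    ![![1,0,1,1,0,0,0,0], ![0,1,0,1,0,0,0,0], ![0,1,1,0,0,0,0,0], ![1,1,0,0,0,0,0,0],
      ![0,0,0,0,1,0,1,1], ![0,0,0,0,0,1,0,1], ![0,0,0,0,0,1,1,0], ![0,0,0,0,1,1,0,0]],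
    ![![0,1,1,1,0,0,0,0], ![1,1,0,1,0,0,0,0], ![1,1,1,0,0,0,0,0], ![1,1,1,1,0,0,0,0],
      ![0,0,0,0,0,1,1,1], ![0,0,0,0,1,1,0,1], ![0,0,0,0,1,1,1,0], ![0,0,0,0,1,1,1,1]]]

lemma bas_li (j : Fin 3) : LinearIndependent (ZMod 2) (bas j) := by
  rw [Fintype.linearIndependent_iff]
  revert j
  decide +kernel

lemma bas_sum (j : Fin 3) : ∑ i, bas j i ∉ univ.image (bas j) := by
  revert j
  decide +kernel

lemma M0_eq : M0 = univ.biUnion fun j => univ.image (bas j) := by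
  decide +kernel

/-- The four circuits. -/
def cov : Fin 4 → Finset (Fin 8 → ZMod 2) :=
  ![insert (∑ i, bas 0 i) (univ.image (bas 0)), insert (∑ i, bas 1 i) (univ.image (bas 1)),
    insert (∑ i, bas 2 i) (univ.image (bas 2)), {∑ i, bas 0 i, ∑ i, bas 1 i, ∑ i, bas 2 i}]

lemma cov_odd : ∀ x, x ∈ M0 ↔ Odd (univ.filter fun i => x ∈ cov i).card := by
  decide +kernel

lemma last_circuit : IsCircuit ({∑ i, bas 0 i, ∑ i, bas 1 i, ∑ i, bas 2 i} :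
    Finset (Fin 8 → ZMod 2)) := by
  refine ⟨⟨⟨_, Finset.mem_insert_self _ _⟩, by decide +kernel, by decide +kernel⟩, ?_⟩
  intro D hD
  have := Finset.mem_powerset.2 hD
  revert D
  decide +kernel

lemma cov_isOddCover : IsOddCover cov M0 := by
  refine ⟨?_, cov_odd⟩
  intro i
  fin_cases i
  · exact isCircuit_insert_sum _ (bas_li 0) (bas_sum 0)
  · exact isCircuit_insert_sum _ (bas_li 1) (bas_sum 1)
  · exact isCircuit_insert_sum _ (bas_li 2) (bas_sum 2)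
  · exact last_circuit

end Pool.Agent.H140.BM
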