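import Pool.Agent.H140.BM.Example

/-!
`M0` has arboricity `3` and `c₂(M0) = 4`.
-/

set_option autoImplicit false

namespace Pool.Agent.H140.BM

open Finset

lemma arboricity_M0 : arboricity M0 = 3 := by
  apply le_antisymm
  · apply Nat.sInf_le
    refine ⟨fun j => univ.image (bas j), fun j => ?_, M0_eq⟩
    have := (bas_li j).linearIndepOn_id
    rw [Finset.coe_image, Finset.coe_univ, Set.image_univ]
    exact this
  · apply le_csInf
    · refine ⟨3, fun j => univ.image (bas j), fun j => ?_, M0_eq⟩
      have := (bas_li j).linearIndepOn_id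
      rw [Finset.coe_image, Finset.coe_univ, Set.image_univ]
      exact this
    · rintro t ⟨I, hI, hM⟩
      have h1 : M0.card ≤ ∑ i : Fin t, (I i).card := by
        rw [hM]; exact Finset.card_biUnion_le
      have h2 : ∑ i : Fin t, (I i).card ≤ ∑ i : Fin t, 8 :=
        Finset.sum_le_sum fun i _ => linearIndepOn_card_le (hI i)
      rw [card_M0] at h1
      simp at h2
      omega

/-- The first four coordinates. -/
def fst4 (v : Fin 8 → ZMod 2) : Fin 4 → ZMod 2 := fun i => v (Fin.castAdd 4 i)

/-- The last four coordinates. -/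
def snd4 (v : Fin 8 → ZMod 2) : Fin 4 → ZMod 2 := fun i => v (Fin.natAdd 4 i)

lemma fst4_add (v w : Fin 8 → ZMod 2) : fst4 (v + w) = fst4 v + fst4 w := rfl
lemma snd4_add (v w : Fin 8 → ZMod 2) : snd4 (v + w) = snd4 v + snd4 w := rfl

lemma fst4_sum (D : Finset (Fin 8 → ZMod 2)) : fst4 (∑ x ∈ D, x) = ∑ x ∈ D, fst4 x := by
  ext i; simp [fst4, Finset.sum_apply]

lemma snd4_sum (D : Finset (Fin 8 → ZMod 2)) : snd4 (∑ x ∈ D, x) = ∑ x ∈ D, snd4 x := by
  ext i; simp [snd4, Finset.sum_apply]

lemma ext4 {v w : Fin 8 → ZMod 2} (h1 : fst4 v = fst4 w) (h2 : snd4 v = snd4 w) : v = w := by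
  ext i
  refine Fin.addCases (m := 4) (n := 4) (motive := fun i => v i = w i)
    (fun i => congrFun h1 i) (fun i => congrFun h2 i) i

/-- A circuit contained in `M0` has at most five elements. -/
lemma circuit_in_M0 {C : Finset (Fin 8 → ZMod 2)} (hC : IsCircuit C) (hsub : C ⊆ M0) :
    C.card ≤ 5 := by
  classical
  have hdich : ∀ x ∈ M0, (snd4 x = 0 ∧ fst4 x ≠ 0) ∨ (fst4 x = 0 ∧ snd4 x ≠ 0) := by
    decide +kernel
  -- both parts have sum zero
  have hA : ∑ x ∈ C.filter (fun x => snd4 x = 0), x = 0 := by
    apply ext4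
    · rw [fst4_sum]
      have h1 : ∑ x ∈ C, fst4 x = 0 := by rw [← fst4_sum, hC.1.2.2]; rfl
      have h2 : ∑ x ∈ C.filter (fun x => snd4 x = 0), fst4 x = ∑ x ∈ C, fst4 x := by
        rw [Finset.sum_filter]
        refine Finset.sum_congr rfl fun x hx => ?_
        by_cases h : snd4 x = 0
        · rw [if_pos h]
        · rw [if_neg h]
          rcases hdich x (hsub hx) with h' | h'
          · exact absurd h'.1 h
          · exact h'.1.symm
      rw [h2, h1]; rfl
    · rw [snd4_sum]
      exact Finset.sum_eq_zero fun x hx => (Finset.mem_filter.1 hx).2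
  have hB : ∑ x ∈ C.filter (fun x => fst4 x = 0), x = 0 := by
    apply ext4
    · rw [fst4_sum]
      exact Finset.sum_eq_zero fun x hx => (Finset.mem_filter.1 hx).2
    · rw [snd4_sum]
      have h1 : ∑ x ∈ C, snd4 x = 0 := by rw [← snd4_sum, hC.1.2.2]; rfl
      have h2 : ∑ x ∈ C.filter (fun x => fst4 x = 0), snd4 x = ∑ x ∈ C, snd4 x := by
        rw [Finset.sum_filter]
        refine Finset.sum_congr rfl fun x hx => ?_
        by_cases h : fst4 x = 0
        · rw [if_pos h]
        · rw [if_neg h]
          rcases hdich x (hsub hx) with h' | h'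
          · exact h'.1.symm
          · exact absurd h'.1 h
      rw [h2, h1]; rfl
  obtain ⟨z, hz⟩ := hC.1.1
  have herase : ∀ D ⊆ C.erase z, D.Nonempty → ∑ x ∈ D, x ≠ 0 :=
    hC.no_zero_sum (Finset.erase_subset z C) (by intro h; rw [← h] at hz; simp at hz)
  have hcard : (C.erase z).card = C.card - 1 := Finset.card_erase_of_mem hz
  rcases hdich z (hsub hz) with hz' | hz'
  · -- all elements are in the first block
    have hall : C.filter (fun x => snd4 x = 0) = C :=
      hC.2 _ (Finset.filter_subset _ _) ⟨z, Finset.mem_filter.2 ⟨hz, hz'.1⟩⟩ hA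
    have hinj : Set.InjOn fst4 (C : Set (Fin 8 → ZMod 2)) := by
      intro a ha b hb hab
      refine ext4 hab ?_
      rw [← hall] at ha hb
      rw [(Finset.mem_filter.1 ha).2, (Finset.mem_filter.1 hb).2]
    have h1 : ((C.erase z).image fst4).card ≤ 4 := by
      apply card_le_of_no_zero_sum
      intro D hD hDne h0
      obtain ⟨E, hE, rfl⟩ := Finset.subset_image_iff.1 hD
      have hE' : E ⊆ C.erase z := by exact_mod_cast hE
      have hEC : E ⊆ C := hE'.trans (Finset.erase_subset _ _)
      refine herase E hE' (by simpa using hDne) ?_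
      apply ext4
      · rw [fst4_sum, ← Finset.sum_image (f := fun x => x) (g := fst4)
          (fun a ha b hb h => hinj (hEC ha) (hEC hb) h), h0]
        rfl
      · rw [snd4_sum]
        refine (Finset.sum_eq_zero fun x hx => ?_).trans rfl
        have := hEC hx
        rw [← hall] at this
        exact (Finset.mem_filter.1 this).2
    rw [Finset.card_image_of_injOn (hinj.mono (by exact_mod_cast Finset.erase_subset _ _)),
      hcard] at h1
    omega
  · have hall : C.filter (fun x => fst4 x = 0) = C :=
      hC.2 _ (Finset.filter_subset _ _) ⟨z, Finset.mem_filter.2 ⟨hz, hz'.1⟩⟩ hB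
    have hinj : Set.InjOn snd4 (C : Set (Fin 8 → ZMod 2)) := by
      intro a ha b hb hab
      refine ext4 ?_ hab
      rw [← hall] at ha hb
      rw [(Finset.mem_filter.1 ha).2, (Finset.mem_filter.1 hb).2]
    have h1 : ((C.erase z).image snd4).card ≤ 4 := by
      apply card_le_of_no_zero_sum
      intro D hD hDne h0
      obtain ⟨E, hE, rfl⟩ := Finset.subset_image_iff.1 hD
      have hE' : E ⊆ C.erase z := by exact_mod_cast hE
      have hEC : E ⊆ C := hE'.trans (Finset.erase_subset _ _)
      refine herase E hE' (by simpa using hDne) ?_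
      apply ext4
      · rw [fst4_sum]
        refine (Finset.sum_eq_zero fun x hx => ?_).trans rfl
        have := hEC hx
        rw [← hall] at this
        exact (Finset.mem_filter.1 this).2
      · rw [snd4_sum, ← Finset.sum_image (f := fun x => x) (g := snd4)
          (fun a ha b hb h => hinj (hEC ha) (hEC hb) h), h0]
        rfl
    rw [Finset.card_image_of_injOn (hinj.mono (by exact_mod_cast Finset.erase_subset _ _)),
      hcard] at h1
    omega

/-- Every circuit meets `M0` in at most `8` elements; if it meets it in `8` elements then it has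
exactly one more element. -/
lemma circuit_meets {C : Finset (Fin 8 → ZMod 2)} (hC : IsCircuit C) :
    (C ∩ M0).card ≤ 8 ∧ ((C ∩ M0).card = 8 → (C \ M0).card = 1) := by
  have htot : (C \ M0).card + (C ∩ M0).card = C.card := Finset.card_sdiff_add_card_inter C M0
  by_cases h : C ⊆ M0
  · have h1 := circuit_in_M0 hC h
    constructor
    · omega
    · intro h2; omega
  · have hne : C ∩ M0 ≠ C := fun h' => h (by rw [← h']; exact Finset.inter_subset_right)
    have h1 := card_le_of_no_zero_sum (hC.no_zero_sum Finset.inter_subset_left hne)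
    refine ⟨h1, fun h2 => ?_⟩
    have h3 := hC.card_le
    have h4 : 0 < (C \ M0).card := by
      rw [Finset.card_pos, Finset.sdiff_nonempty]
      exact h
    omega

lemma four_le {t : ℕ} {C : Fin t → Finset (Fin 8 → ZMod 2)} (hC : IsOddCover C M0) : 4 ≤ t := by
  classical
  by_contra hlt
  have hcover : M0 ⊆ univ.biUnion fun i => C i ∩ M0 := by
    intro x hx
    have h1 := (hC.2 x).1 hx
    obtain ⟨i, hi⟩ := Finset.card_pos.1 h1.pos
    rw [Finset.mem_biUnion]
    exact ⟨i, Finset.mem_univ i, Finset.mem_inter.2 ⟨(Finset.mem_filter.1 hi).2, hx⟩⟩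
  have h1 : 24 ≤ ∑ i : Fin t, (C i ∩ M0).card := by
    rw [← card_M0]
    exact (Finset.card_le_card hcover).trans Finset.card_biUnion_le
  have hle : ∀ i, (C i ∩ M0).card ≤ 8 := fun i => (circuit_meets (hC.1 i)).1
  have h2 : ∑ i : Fin t, (C i ∩ M0).card ≤ ∑ i : Fin t, 8 :=
    Finset.sum_le_sum fun i _ => hle i
  have h2' : ∑ i : Fin t, 8 = 8 * t := by simp [mul_comm]
  have ht : t = 3 := by omega
  subst ht
  have heq : ∀ i, (C i ∩ M0).card = 8 := by
    have h3 : ∑ i : Fin 3, (C i ∩ M0).card = 24 := by omega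
    rw [Fin.sum_univ_three] at h3
    have a := hle 0
    have b := hle 1
    have c := hle 2
    intro i
    fin_cases i <;> simp only [Fin.zero_eta, Fin.mk_one, Fin.reduceFinMk] <;> omega
  have hout : ∀ i, (C i \ M0).card = 1 := fun i => (circuit_meets (hC.1 i)).2 (heq i)
  have hsum : ∑ i : Fin 3, (C i \ M0).card = 3 := by simp [hout]
  have hdc : ∑ i : Fin 3, (C i \ M0).card =
      ∑ x ∈ univ.filter (fun x => x ∉ M0), (univ.filter fun i => x ∈ C i).card := by
    have e1 : ∀ i, (C i \ M0).card =
        ∑ x ∈ univ.filter (fun x => x ∉ M0), if x ∈ C i then 1 else 0 := by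
      intro i
      rw [← Finset.card_filter]
      congr 1
      ext x
      simp [and_comm]
    simp only [e1, Finset.card_filter]
    exact Finset.sum_comm
  have heven : Even (∑ x ∈ univ.filter (fun x => x ∉ M0), (univ.filter fun i => x ∈ C i).card) := by
    apply Finset.even_sum
    intro x hx
    have := (Finset.mem_filter.1 hx).2
    rw [hC.2 x] at this
    exact Nat.not_odd_iff_even.1 this
  rw [← hdc, hsum] at heven
  exact absurd heven (by decide)

theorem c2_M0 : c2 M0 = 4 := by
  apply le_antisymm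
  · exact Nat.sInf_le ⟨cov, cov_isOddCover⟩
  · refine le_csInf ⟨4, ⟨cov, cov_isOddCover⟩⟩ ?_
    rintro t ⟨C, hC⟩
    exact four_le hC

end Pool.Agent.H140.BM
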